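import Pool.Agent.D0H73.OP.Stm

/-!
# Project OP, module PKG: length functions from maximisers
-/

set_option autoImplicit false

open Finset
open scoped BigOperators

namespace Pool.Agent.D0H90.OP

open Pool.Agent.V1192 Pool.Agent.V1192.UOD Pool.Agent.D0H73.OP

noncomputable section

variable {p : ℕ} [Fact p.Prime] {N : ℕ}

/-- The size of `S` for a maximiser. -/
theorem card_S_le {μ : V p N → ℝ} {M : ℕ} {η : ℝ} {J : Finset (Fin N)} {S : Finset (V p N)}
    (hμ : ∀ v, 0 ≤ μ v) (hη : 0 < η)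
    (hmax : ∀ q, Psi μ M η q ≤ Psi μ M η (J, S)) :
    η * (((M : ℝ) + 1) * (S.card : ℝ)) ≤ ∑ v, μ v := by
  have h1 := hmax (∅, ∅)
  simp only [Psi, card_empty, Nat.cast_zero, mul_zero, add_zero, sub_zero] at h1
  have h2 := Phi_nonneg hμ (∅ : Finset (Fin N)) (∅ : Finset (V p N))
  have h3 := Phi_le hμ J S
  have h4 : 0 ≤ η * (J.card : ℝ) := by positivity
  have h5 : η * ((J.card : ℝ) + (M + 1) * S.card)
      = η * J.card + η * (((M : ℝ) + 1) * S.card) := by ring
  linarith

open Classical in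
theorem card_span_le (S : Finset (V p N)) :
    (univ.filter (fun l : V p N => l ∈ Submodule.span (ZMod p) (S : Set (V p N)))).card
      ≤ p ^ S.card := by
  have h : univ.filter (fun l : V p N => l ∈ Submodule.span (ZMod p) (S : Set (V p N))) ⊆
      (univ : Finset (S → ZMod p)).image (fun c => ∑ s : S, c s • (s : V p N)) := by
    intro l hl
    obtain ⟨c, -, hc⟩ := Submodule.mem_span_finset.1 (mem_filter.1 hl).2
    refine mem_image.2 ⟨fun s => c s, mem_univ _, ?_⟩
    rw [← hc, ← sum_coe_sort S (fun s => c s • s)]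
  refine (card_le_card h).trans (card_image_le.trans ?_)
  rw [card_univ, Fintype.card_fun, ZMod.card, Fintype.card_coe]

open Classical in
theorem near_sum {μ : V p N → ℝ} {M : ℕ} {η : ℝ} {J : Finset (Fin N)} {S : Finset (V p N)}
    (hμ : ∀ v, 0 ≤ μ v) (hη : 0 < η)
    (hmax : ∀ q, Psi μ M η q ≤ Psi μ M η (J, S)) (q : ℝ) (hq : |q| ≤ 1 / 16) (v : V p N) :
    ‖∑ l ∈ univ.filter (fun l : V p N => l ∈ Submodule.span (ZMod p) (S : Set (V p N))),
      (q : ℂ) ^ wt J (v - l) - (q : ℂ) ^ dst J S v‖ ≤ (p : ℝ) ^ S.card * (1 / 4) ^ M := by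
  set L := univ.filter (fun l : V p N => l ∈ Submodule.span (ZMod p) (S : Set (V p N))) with hL
  have h0 : near J S v ∈ L := mem_filter.2 ⟨mem_univ _, near_mem _⟩
  rw [← add_sum_erase L _ h0, near_wt, add_sub_cancel_left]
  refine (norm_sum_le _ _).trans ?_
  have h1 : ∀ l ∈ L.erase (near J S v), ‖(q : ℂ) ^ wt J (v - l)‖ ≤ (1 / 4 : ℝ) ^ M := by
    intro l hl
    rw [mem_erase, hL, mem_filter] at hl
    obtain ⟨hne, -, hl⟩ := hl
    have h2 : M < wt J (l - near J S v) := by
      by_contra hcon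
      exact hne (sub_eq_zero.1 (span_small hμ hη hmax
        (Submodule.sub_mem _ hl (near_mem _)) (not_lt.1 hcon)))
    have h3 : wt J (l - near J S v) ≤ wt J (v - l) + wt J (v - near J S v) := by
      have e : l - near J S v = -(v - l) + (v - near J S v) := by abel
      rw [e]
      refine (wt_add J _ _).trans ?_
      rw [wt_neg]
    have h4 : wt J (v - near J S v) ≤ wt J (v - l) := by
      rw [near_wt]; exact dst_le hl
    have h5 : M ≤ 2 * wt J (v - l) := by omega
    rw [norm_pow, Complex.norm_real, Real.norm_eq_abs]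
    calc |q| ^ wt J (v - l) ≤ (1 / 16 : ℝ) ^ wt J (v - l) :=
          pow_le_pow_left₀ (abs_nonneg _) hq _
      _ = (1 / 4 : ℝ) ^ (2 * wt J (v - l)) := by rw [pow_mul]; norm_num
      _ ≤ (1 / 4 : ℝ) ^ M := pow_le_pow_of_le_one (by norm_num) (by norm_num) h5
  refine (sum_le_card_nsmul _ _ _ h1).trans ?_
  rw [nsmul_eq_mul]
  refine mul_le_mul_of_nonneg_right ?_ (by positivity)
  calc ((L.erase (near J S v)).card : ℝ) ≤ (L.card : ℝ) := by
        exact_mod_cast card_le_card (erase_subset _ _)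
    _ ≤ (p : ℝ) ^ S.card := by exact_mod_cast card_span_le S

theorem unit_dst {μ : V p N → ℝ} {M : ℕ} {η : ℝ} {J : Finset (Fin N)} {S : Finset (V p N)}
    (hμ : ∀ v, 0 ≤ μ v) (hη : 0 < η) (hM : 1 ≤ M)
    (hmax : ∀ q, Psi μ M η q ≤ Psi μ M η (J, S)) (j : Fin N) (hj : j ∉ J) (a : ZMod p)
    (ha : a ≠ 0) : dst J S (Pi.single j a : V p N) = 1 := by
  have hwt : wt J (Pi.single j a : V p N) ≤ 1 := by
    unfold wt
    have : univ.filter (fun i => i ∉ J ∧ (Pi.single j a : V p N) i ≠ 0) ⊆ {j} := by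
      intro i hi
      simp only [mem_filter, mem_univ, true_and] at hi
      rw [mem_singleton]
      by_contra hij
      exact hi.2 (by rw [Pi.single_apply, if_neg hij])
    exact (card_le_card this).trans (card_singleton j).le
  refine le_antisymm ((dst_le_wt _).trans hwt) ?_
  by_contra hcon
  have h0 : dst J S (Pi.single j a : V p N) = 0 := by omega
  have h1 := near_wt (J := J) (S := S) (Pi.single j a : V p N)
  rw [h0] at h1
  set l := near J S (Pi.single j a : V p N) with hl
  have h2 : wt J l ≤ M := by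
    have e1 : l = Pi.single j a + (-((Pi.single j a : V p N) - l)) := by abel
    rw [e1]
    have e2 := wt_add J (Pi.single j a : V p N) (-((Pi.single j a : V p N) - l))
    rw [wt_neg, h1] at e2
    omega
  have h3 := span_small hμ hη hmax (near_mem _) h2
  have hl0 : l = 0 := h3
  rw [hl0, sub_zero] at h1
  have h4 : j ∈ univ.filter (fun i => i ∉ J ∧ (Pi.single j a : V p N) i ≠ 0) := by
    simp [hj, ha]
  have h5 : 0 < wt J (Pi.single j a : V p N) := card_pos.2 ⟨j, h4⟩
  omega

theorem chr_zero (u : V p N) : chr u 0 = 1 := by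
  unfold chr
  simp

open Classical in
theorem t_PKG : S_RIESZ → S_PKG := by
  intro hR p _ C τ hC hτ
  have hp2 : (2 : ℝ) ≤ p := by exact_mod_cast (Fact.out : p.Prime).two_le
  have hp0 : (0 : ℝ) < p := by linarith
  obtain ⟨k, hk⟩ := pow_unbounded_of_one_lt (4 * C ^ 2 / τ) (one_lt_two (α := ℝ))
  have hk' : 2 * (C * (C * (1 / 2 : ℝ) ^ k)) ≤ τ / 2 := by
    have e : (1 / 2 : ℝ) ^ k = 1 / 2 ^ k := by rw [one_div_pow]
    rw [e]
    rw [div_lt_iff₀ hτ] at hk
    have e5 : 2 * (C * (C * (1 / 2 ^ k))) = (2 * C ^ 2) / 2 ^ k := by ring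
    rw [e5, div_le_iff₀ (by positivity)]
    nlinarith
  set D : ℝ := C * (2 * k * 4 ^ k) + 2 * C + 1 with hD
  have hD0 : 0 < D := by positivity
  set s : ℝ := τ / 2 / D with hs
  have hs0 : 0 < s := by positivity
  have hsD : s * D = τ / 2 := by rw [hs]; field_simp
  obtain ⟨B, hB⟩ := exists_nat_ge (2 * C / s)
  have hmin : 0 < min τ 1 := lt_min hτ one_pos
  obtain ⟨M0, hM0⟩ := exists_pow_lt_of_lt_one
    (show 0 < min τ 1 / 4 / (p : ℝ) ^ B by positivity) (show (1 / 4 : ℝ) < 1 by norm_num)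
  obtain ⟨M, hM⟩ : ∃ M : ℕ, M = M0 + 8 * k + 1 := ⟨_, rfl⟩
  have hMd : (p : ℝ) ^ B * (1 / 4) ^ M ≤ min τ 1 / 4 := by
    have e1 : (1 / 4 : ℝ) ^ M ≤ (1 / 4) ^ M0 :=
      pow_le_pow_of_le_one (by norm_num) (by norm_num) (by omega)
    have e2 := e1.trans hM0.le
    rw [le_div_iff₀ (by positivity)] at e2
    linarith
  obtain ⟨η, hη⟩ : ∃ η : ℝ, η = s / (M + 1) := ⟨_, rfl⟩
  have hη0 : 0 < η := by rw [hη]; positivity
  have hηs : η * (M + 1) = s := by rw [hη]; field_simp
  have hηle : η ≤ s := by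
    rw [← hηs]
    have : (0 : ℝ) ≤ M := Nat.cast_nonneg _
    nlinarith
  obtain ⟨N, hN⟩ := exists_nat_gt (2 * C / (η * τ))
  have hN0 : (0 : ℝ) < N := lt_of_le_of_lt (by positivity) hN
  refine ⟨N, by exact_mod_cast hN0, fun m hm hmC => ?_⟩
  obtain ⟨⟨J, S⟩, hmax⟩ := exists_max (fun v : V p N => m v + m v) M η
  have hμ : ∀ v : V p N, 0 ≤ m v + m v := fun v => add_nonneg (hm v) (hm v)
  have hμC : ∑ v : V p N, (m v + m v) ≤ 2 * C := by rw [sum_add_distrib]; linarith
  have hScard : S.card ≤ B := by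
    have e1 := (card_S_le hμ hη0 hmax).trans hμC
    have e2 : s * (S.card : ℝ) ≤ 2 * C := by
      rw [← hηs]; linarith
    have e3 : (S.card : ℝ) ≤ 2 * C / s := by rw [le_div_iff₀ hs0]; linarith
    exact_mod_cast e3.trans hB
  have hδ : ∀ q : ℝ, |q| ≤ 1 / (8 * p) → ∀ v : V p N,
      ‖∑ l ∈ univ.filter (fun l : V p N => l ∈ Submodule.span (ZMod p) (S : Set (V p N))),
        (q : ℂ) ^ wt J (v - l) - (q : ℂ) ^ dst J S v‖ ≤ min τ 1 / 4 := by
    intro q hq v
    have hq16 : |q| ≤ 1 / 16 := by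
      refine hq.trans ?_
      apply one_div_le_one_div_of_le (by norm_num)
      linarith
    refine (near_sum hμ hη0 hmax q hq16 v).trans (le_trans ?_ hMd)
    refine mul_le_mul_of_nonneg_right ?_ (by positivity)
    exact pow_le_pow_right₀ (by linarith) hScard
  refine ⟨dst J S, ⟨dst_zero, fun v => dst_neg v, fun u v => dst_add u v, ?_, ?_, ?_⟩⟩
  · -- mass
    have herr := total_error (k := k) hη0 (show 8 * k ≤ M by omega) hm hm hmax hmC hmC
    have e1 : ∑ u, ∑ v, m u * m v * Bd (dst J S) u v = ∑ g, ∑ h, m g * m h * BB J S g h := rfl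
    rw [e1]
    refine herr.trans ?_
    rw [hηs]
    have e2 : C * (2 * k * 4 ^ k * η) ≤ C * (2 * k * 4 ^ k) * s := by
      have : 0 ≤ C * (2 * (k : ℝ) * 4 ^ k) := by positivity
      have := mul_le_mul_of_nonneg_left hηle this
      linarith
    have e3 : C * (2 * k * 4 ^ k) * s + 2 * C * s ≤ τ / 2 := by
      rw [← hsD, hD]
      nlinarith
    linarith
  · -- generators
    have e1 := (card_J_le hμ hη0 hmax).trans hμC
    have e2 : (univ.filter (fun j : Fin N => ∃ a : ZMod p, a ≠ 0 ∧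
        dst J S (Pi.single j a : V p N) ≠ 1)).card ≤ J.card := by
      refine card_le_card ?_
      intro j hj
      obtain ⟨a, ha, h⟩ := (mem_filter.1 hj).2
      by_contra hcon
      exact h (unit_dst hμ hη0 (by omega) hmax j hcon a ha)
    have e3 : ((univ.filter (fun j : Fin N => ∃ a : ZMod p, a ≠ 0 ∧
        dst J S (Pi.single j a : V p N) ≠ 1)).card : ℝ) ≤ J.card := by exact_mod_cast e2
    have e4 : (J.card : ℝ) ≤ τ * N := by
      have e5 : 2 * C < N * (η * τ) := by rwa [div_lt_iff₀ (by positivity)] at hN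
      have e6 : η * (J.card : ℝ) ≤ η * (τ * N) := by nlinarith
      exact le_of_mul_le_mul_left e6 hη0
    refine le_trans ?_ (e3.trans e4)
    convert le_refl _
  · -- Riesz
    intro q hq
    obtain ⟨ρ, hρ0, hρ⟩ := hR p N J S q hq
    have hδ' := hδ q hq
    set T : V p N → ℂ := fun v =>
      ∑ l ∈ univ.filter (fun l : V p N => l ∈ Submodule.span (ZMod p) (S : Set (V p N))),
        (q : ℂ) ^ wt J (v - l) with hT
    have hT1 : ∀ v, ‖T v - (q : ℂ) ^ dst J S v‖ ≤ min τ 1 / 4 := hδ'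
    have hρT : ∀ v, ∑ u, (ρ u : ℂ) * chr u v = T v := by
      intro v
      rw [hρ v, hT]
    set R : ℝ := ∑ u, ρ u with hRdef
    have hRT : (R : ℂ) = T 0 := by
      rw [← hρT 0, hRdef]
      push_cast
      exact sum_congr rfl fun u _ => by rw [chr_zero, mul_one]
    have hR1 : |R - 1| ≤ min τ 1 / 4 := by
      have h := hT1 0
      rw [dst_zero, pow_zero, ← hRT] at h
      rw [← Complex.ofReal_one, ← Complex.ofReal_sub, Complex.norm_real] at h
      exact h
    have hR34 : 3 / 4 ≤ R := by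
      have h := (abs_le.1 hR1).1
      have h2 := min_le_right τ 1
      linarith
    have hRpos : 0 < R := by linarith
    refine ⟨fun u => ρ u / R, fun u => div_nonneg (hρ0 u) hRpos.le, ?_, fun v => ?_⟩
    · rw [← sum_div, ← hRdef, div_self hRpos.ne']
    · have e1 : ∑ u, ((ρ u / R : ℝ) : ℂ) * chr u v = T v / R := by
        rw [← hρT v, sum_div]
        refine sum_congr rfl fun u _ => ?_
        push_cast
        ring
      rw [e1]
      have hRc : (R : ℂ) ≠ 0 := by exact_mod_cast hRpos.ne'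
      have e2 : T v / R - (q : ℂ) ^ dst J S v
          = ((T v - (q : ℂ) ^ dst J S v) + (q : ℂ) ^ dst J S v * ((1 - R : ℝ) : ℂ)) / R := by
        push_cast
        field_simp
        ring
      rw [e2, norm_div, Complex.norm_real, Real.norm_eq_abs, abs_of_pos hRpos,
        div_le_iff₀ hRpos]
      refine (norm_add_le _ _).trans ?_
      have e3 : ‖(q : ℂ) ^ dst J S v * ((1 - R : ℝ) : ℂ)‖ ≤ min τ 1 / 4 := by
        rw [norm_mul, norm_pow, Complex.norm_real, Complex.norm_real, Real.norm_eq_abs,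
          Real.norm_eq_abs, abs_sub_comm]
        have e4 : |q| ^ dst J S v ≤ 1 := by
          refine pow_le_one₀ (abs_nonneg _) (hq.trans ?_)
          rw [div_le_one (by positivity)]
          linarith
        calc |q| ^ dst J S v * |R - 1| ≤ 1 * |R - 1| :=
              mul_le_mul_of_nonneg_right e4 (abs_nonneg _)
          _ ≤ _ := by rw [one_mul]; exact hR1
      have e5 := hT1 v
      have e6 := min_le_left τ 1
      nlinarith

end

end Pool.Agent.D0H90.OP
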